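import Mathlib

/-!
# The complex method fails for Gateaux differentiable Lipschitz operators

Let `A₀ = ℓ₂`, `A₁ = ℓ₂(64 ^ j)`, `B₀ = ℓ₁`, `B₁ = ℓ₁(64 ^ j)` and `θ = 1 / 2`. With
`g j = (j + 1) ^ (-3 / 4)`, `c j = 8 ^ (-j) g j`, `b j = 8 ^ (-j) / (j + 1)` and `a j = 4 c j` the map
`U x = (b j * φ (‖x - a‖ ^ 2 / (c j) ^ 2))`, where `φ s = (max 0 (1 - s)) ^ 2`, is Lipschitz and
Gateaux differentiable from `ℓ₂` to `ℓ₁`, bounded from `A₁` to `B₁`, and `a` belongs to the
interpolation space `[A₀, A₁]_θ`, but `U a = b` does not belong to `[B₀, B₁]_θ`.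
-/

set_option autoImplicit false

namespace Pool.Agent.Results.MP_754066_an.GateauxFails

open Filter Topology Finset

section Defs

variable {A₀ A₁ : Type} [NormedAddCommGroup A₀] [NormedSpace ℂ A₀]
  [NormedAddCommGroup A₁] [NormedSpace ℂ A₁]

/-- The functions in the definition of the complex interpolation spaces of the couple given by the
inclusion `ι : A₁ → A₀`: functions `f` on the closed strip `0 ≤ Re z ≤ 1` with values in
`A₀ + A₁ = A₀`, bounded and continuous on the closed strip and analytic inside, such that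
`t ↦ f (i t)` tends to zero in `A₀` and `t ↦ f (1 + i t)` is a continuous function with values in
`A₁` that tends to zero in `A₁`, as `|t| → ∞`. -/
def InStripClass (ι : A₁ →L[ℂ] A₀) (f : ℂ → A₀) : Prop :=
  ContinuousOn f {z | 0 ≤ z.re ∧ z.re ≤ 1} ∧
  (∃ C : ℝ, ∀ z : ℂ, 0 ≤ z.re → z.re ≤ 1 → ‖f z‖ ≤ C) ∧
  DifferentiableOn ℂ f {z | 0 < z.re ∧ z.re < 1} ∧
  Tendsto (fun t : ℝ => f (t * Complex.I)) (cocompact ℝ) (𝓝 0) ∧
  ∃ g : ℝ → A₁, Continuous g ∧ Tendsto g (cocompact ℝ) (𝓝 0) ∧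
    ∀ t : ℝ, ι (g t) = f (1 + t * Complex.I)

/-- The complex interpolation space `[A₀, A₁]_θ` as a set. -/
def InterpSpace (ι : A₁ →L[ℂ] A₀) (θ : ℝ) : Set A₀ :=
  {a | ∃ f : ℂ → A₀, InStripClass ι f ∧ f θ = a}

/-- Gateaux differentiability in the real sense. -/
def RealGateauxDifferentiable {B₀ : Type} [NormedAddCommGroup B₀] [NormedSpace ℂ B₀]
    (U : A₀ → B₀) : Prop :=
  ∀ x : A₀, ∃ D : A₀ → B₀, (∀ h k, D (h + k) = D h + D k) ∧
    (∀ (r : ℝ) h, D ((r : ℂ) • h) = (r : ℂ) • D h) ∧ (∃ C : ℝ, ∀ h, ‖D h‖ ≤ C * ‖h‖) ∧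
    ∀ h, Tendsto (fun t : ℝ => ((t : ℂ)⁻¹) • (U (x + (t : ℂ) • h) - U x)) (𝓝[≠] 0) (𝓝 (D h))

end Defs

section Seq

/-- The sequence `(j + 1) ^ (-3 / 4)`. -/
noncomputable def g (j : ℕ) : ℝ := ((j : ℝ) + 1) ^ (-(3 / 4) : ℝ)

/-- The sequence `8 ^ (-j) g j`. -/
noncomputable def c (j : ℕ) : ℝ := g j / 8 ^ j

/-- The sequence `8 ^ (-j) / (j + 1)`. -/
noncomputable def b (j : ℕ) : ℝ := 1 / ((j : ℝ) + 1) / 8 ^ j

theorem g_pos (j : ℕ) : 0 < g j := by unfold g; positivity

theorem c_pos (j : ℕ) : 0 < c j := by unfold c; have := g_pos j; positivity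

theorem b_pos (j : ℕ) : 0 < b j := by unfold b; positivity

theorem g_succ_le (j : ℕ) : g (j + 1) ≤ g j := by
  unfold g
  apply Real.rpow_le_rpow_of_nonpos (by positivity) _ (by norm_num)
  push_cast; linarith

theorem g_le_one (j : ℕ) : g j ≤ 1 := by
  unfold g
  apply Real.rpow_le_one_of_one_le_of_nonpos
  · have : (0 : ℝ) ≤ j := Nat.cast_nonneg j
    linarith
  · norm_num

theorem c_succ_le (j : ℕ) : c (j + 1) ≤ c j / 8 := by
  unfold c
  rw [pow_succ, div_div, ]
  gcongr
  exact g_succ_le j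

theorem c_succ_lt (j : ℕ) : c (j + 1) < c j := by
  have h1 := c_succ_le j
  have h2 := c_pos j
  linarith

theorem c_anti : StrictAnti c := strictAnti_nat_of_succ_lt c_succ_lt

theorem c_le (j : ℕ) : c j ≤ (1 / 8) ^ j := by
  unfold c
  rw [one_div, inv_pow, div_eq_mul_inv]
  exact mul_le_of_le_one_left (by positivity) (g_le_one j)

theorem c_tendsto : Tendsto c atTop (𝓝 0) :=
  squeeze_zero (fun j => (c_pos j).le) c_le
    (tendsto_pow_atTop_nhds_zero_of_lt_one (by norm_num) (by norm_num))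

/-- The quotient `b j / c j`. -/
noncomputable def del (j : ℕ) : ℝ := ((j : ℝ) + 1) ^ (-(1 / 4) : ℝ)

theorem del_pos (j : ℕ) : 0 < del j := by unfold del; positivity

theorem b_eq (j : ℕ) : b j = del j * c j := by
  unfold b c g del
  rw [mul_div_assoc', ← Real.rpow_add (by positivity)]
  norm_num
  rw [Real.rpow_neg_one]

theorem del_le_one (j : ℕ) : del j ≤ 1 := by
  unfold del
  apply Real.rpow_le_one_of_one_le_of_nonpos
  · have : (0 : ℝ) ≤ j := Nat.cast_nonneg j
    linarith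
  · norm_num

theorem del_tendsto : Tendsto del atTop (𝓝 0) := by
  have h1 : Tendsto (fun x : ℝ => x ^ (-(1 / 4) : ℝ)) atTop (𝓝 0) :=
    tendsto_rpow_neg_atTop (by norm_num)
  have h2 : Tendsto (fun j : ℕ => (j : ℝ) + 1) atTop atTop :=
    tendsto_atTop_add_const_right _ _ tendsto_natCast_atTop_atTop
  exact h1.comp h2

theorem b_le_c (j : ℕ) : b j ≤ c j := by
  rw [b_eq]
  exact mul_le_of_le_one_left (c_pos j).le (del_le_one j)

theorem b_le (j : ℕ) : b j ≤ (1 / 8) ^ j := (b_le_c j).trans (c_le j)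

theorem summable_b : Summable b :=
  Summable.of_nonneg_of_le (fun j => (b_pos j).le) b_le
    (summable_geometric_of_lt_one (by norm_num) (by norm_num))

theorem summable_c : Summable c :=
  Summable.of_nonneg_of_le (fun j => (c_pos j).le) c_le
    (summable_geometric_of_lt_one (by norm_num) (by norm_num))

theorem summable_g_sq : Summable fun j => g j ^ 2 := by
  have h1 : Summable fun n : ℕ => (n : ℝ) ^ (-(3 / 2) : ℝ) :=
    Real.summable_nat_rpow.2 (by norm_num)
  have h2 := (summable_nat_add_iff 1).2 h1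
  refine h2.congr fun j => ?_
  unfold g
  rw [← Real.rpow_natCast, ← Real.rpow_mul (by positivity)]
  push_cast
  norm_num

/-- The sum of the reciprocals. -/
theorem sum_inv_c (K : ℕ) : ∑ j ∈ range (K + 1), (c j)⁻¹ ≤ 2 * (c K)⁻¹ := by
  induction K with
  | zero => simp; have := c_pos 0; have : 0 < (c 0)⁻¹ := by positivity
            linarith
  | succ K ih =>
    rw [sum_range_succ]
    have h1 := c_succ_le K
    have h2 := c_pos K
    have h3 := c_pos (K + 1)
    have h4 : 8 * (c K)⁻¹ ≤ (c (K + 1))⁻¹ := by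
      rw [show 8 * (c K)⁻¹ = (c K / 8)⁻¹ by rw [inv_div]; ring]
      exact inv_anti₀ h3 h1
    have h5 : 0 < (c K)⁻¹ := by positivity
    linarith

/-- The tails. -/
theorem tail_c (K N : ℕ) : ∑ j ∈ range N, c (K + j) ≤ 2 * c K := by
  have h1 : ∀ j, c (K + j) ≤ c K * (1 / 8) ^ j := by
    intro j
    induction j with
    | zero => simp
    | succ j ih =>
      rw [← add_assoc, pow_succ]
      have := c_succ_le (K + j)
      linarith
  calc ∑ j ∈ range N, c (K + j) ≤ ∑ j ∈ range N, c K * (1 / 8) ^ j := sum_le_sum fun j _ => h1 j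
    _ = c K * ∑ j ∈ range N, (1 / 8) ^ j := (mul_sum _ _ _).symm
    _ ≤ c K * (1 - 1 / 8)⁻¹ := by
        gcongr
        · exact (c_pos K).le
        · have h2 := (summable_geometric_of_lt_one (r := (1 / 8 : ℝ)) (by norm_num)
            (by norm_num)).sum_le_tsum (range N) fun _ _ => by positivity
          rwa [tsum_geometric_of_lt_one (by norm_num) (by norm_num)] at h2
    _ ≤ 2 * c K := by have := c_pos K; norm_num; linarith

theorem sum_weights (K : ℕ) : ∑ j ∈ range (K + 1), 64 ^ j * b j ≤ 2 * (64 ^ K * b K) := by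
  have h64 : ∀ j, (64 : ℝ) ^ j * b j = 8 ^ j / ((j : ℝ) + 1) := by
    intro j
    unfold b
    have : (64 : ℝ) ^ j = 8 ^ j * 8 ^ j := by rw [← mul_pow]; norm_num
    rw [this]
    field_simp
  simp_rw [h64]
  induction K with
  | zero => simp
  | succ K ih =>
    rw [sum_range_succ]
    have h1 : (8 : ℝ) ^ K / ((K : ℝ) + 1) * 4 ≤ 8 ^ (K + 1) / (((K + 1 : ℕ) : ℝ) + 1) := by
      rw [div_mul_eq_mul_div, div_le_div_iff₀ (by positivity) (by positivity), pow_succ]
      push_cast
      have : (0 : ℝ) < 8 ^ K := by positivity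
      have hK : (0 : ℝ) ≤ K := Nat.cast_nonneg K
      nlinarith
    have h2 : (0 : ℝ) < 8 ^ K / ((K : ℝ) + 1) := by positivity
    linarith

end Seq

section Bump

/-- The bump function. -/
noncomputable def ph (s : ℝ) : ℝ := (max 0 (1 - s)) ^ 2

theorem ph_nonneg (s : ℝ) : 0 ≤ ph s := by unfold ph; positivity

theorem ph_le_one {s : ℝ} (hs : 0 ≤ s) : ph s ≤ 1 := by
  unfold ph
  have h1 : max 0 (1 - s) ≤ 1 := max_le (by norm_num) (by linarith)
  exact pow_le_one₀ (le_max_left _ _) h1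

theorem ph_eq_zero {s : ℝ} (hs : 1 ≤ s) : ph s = 0 := by
  unfold ph
  rw [max_eq_left (by linarith)]; norm_num

theorem ph_zero : ph 0 = 1 := by unfold ph; norm_num

theorem one_sub_ph_le {s : ℝ} (hs : 0 ≤ s) : 1 - ph s ≤ 2 * s := by
  by_cases h : 1 ≤ s
  · rw [ph_eq_zero h]; linarith
  · unfold ph
    push Not at h
    rw [max_eq_right (by linarith)]
    nlinarith

theorem hasDerivAt_sq_max (u : ℝ) : HasDerivAt (fun u : ℝ => (max 0 u) ^ 2) (2 * max 0 u) u := by
  rcases lt_trichotomy u 0 with hu | hu | hu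
  · rw [max_eq_left hu.le, mul_zero]
    refine (hasDerivAt_const u (0 : ℝ)).congr_of_eventuallyEq ?_
    filter_upwards [gt_mem_nhds hu] with v hv
    rw [max_eq_left (le_of_lt hv)]; norm_num
  · rw [hu, max_self, mul_zero, hasDerivAt_iff_isLittleO]
    rw [Asymptotics.isLittleO_iff]
    intro ε hε
    filter_upwards [Metric.ball_mem_nhds (0 : ℝ) hε] with v hv
    rw [Metric.mem_ball, dist_zero_right, Real.norm_eq_abs] at hv
    simp only [max_self, smul_eq_mul, mul_zero, sub_zero, Real.norm_eq_abs]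
    have h0 : (0 : ℝ) ^ 2 = 0 := by norm_num
    rw [h0, sub_zero, abs_of_nonneg (by positivity)]
    have h1 : max 0 v ≤ |v| := max_le (abs_nonneg _) (le_abs_self _)
    calc (max 0 v) ^ 2 ≤ |v| ^ 2 := by gcongr
      _ = |v| * |v| := by ring
      _ ≤ ε * |v| := by gcongr
  · have h1 : HasDerivAt (fun u : ℝ => u ^ 2) (2 * u) u := by
      simpa using hasDerivAt_pow 2 u
    rw [max_eq_right hu.le]
    refine h1.congr_of_eventuallyEq ?_
    filter_upwards [lt_mem_nhds hu] with v hv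
    rw [max_eq_right (le_of_lt hv)]

theorem hasDerivAt_ph (s : ℝ) : HasDerivAt ph (-(2 * max 0 (1 - s))) s := by
  have h1 := (hasDerivAt_sq_max (1 - s)).comp s ((hasDerivAt_id s).const_sub 1)
  have h2 : 2 * max 0 (1 - s) * -1 = -(2 * max 0 (1 - s)) := by ring
  rw [h2] at h1
  exact h1

end Bump

section Maps

/-- `ℓ₁`. -/
abbrev L1 : Type := lp (fun _ : ℕ => ℂ) 1

/-- `ℓ₂`. -/
abbrev L2 : Type := lp (fun _ : ℕ => ℂ) 2

/-- The unit vectors of `ℓ₁`. -/
noncomputable def e (j : ℕ) : L1 := lp.single 1 j (1 : ℂ)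

theorem norm_e (j : ℕ) : ‖e j‖ = 1 := by
  unfold e
  rw [lp.norm_single (by norm_num), norm_one]

theorem e_apply (j k : ℕ) : e j k = if k = j then 1 else 0 := by
  unfold e
  by_cases h : k = j
  · subst h; simp
  · rw [if_neg h, lp.single_apply_ne _ _ _ h]

theorem norm_L1 (x : L1) : ‖x‖ = ∑' j, ‖x j‖ := by
  rw [lp.norm_eq_tsum_rpow (by norm_num)]
  simp

theorem summable_L1 (x : L1) : Summable fun j => ‖x j‖ := by
  have := (lp.memℓp x).summable (by norm_num)
  simpa using this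

theorem mem_L1 {f : ℕ → ℂ} (h : Summable fun j => ‖f j‖) : Memℓp f 1 := by
  rw [memℓp_gen_iff (by norm_num)]
  simpa using h

/-- The bumps as a function of the square of the distance. -/
noncomputable def E (q : ℝ) : L1 :=
  ⟨fun j => ((b j * ph (max q 0 / c j ^ 2) : ℝ) : ℂ), mem_L1 (by
    refine Summable.of_nonneg_of_le (fun j => norm_nonneg _) (fun j => ?_) summable_b
    rw [Complex.norm_real, Real.norm_eq_abs, abs_of_nonneg
      (mul_nonneg (b_pos j).le (ph_nonneg _))]
    exact mul_le_of_le_one_right (b_pos j).le (ph_le_one (by positivity)))⟩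

theorem E_apply (q : ℝ) (j : ℕ) : E q j = ((b j * ph (max q 0 / c j ^ 2) : ℝ) : ℂ) := rfl

/-- For `ρ > 0` the indices with `ρ < c j` form an initial segment. -/
theorem exists_N {ρ : ℝ} (hρ : 0 < ρ) : ∃ N, (∀ j < N, ρ < c j) ∧ ∀ j, N ≤ j → c j ≤ ρ := by
  classical
  have h1 : ∃ n, c n ≤ ρ := by
    obtain ⟨n, hn⟩ := (c_tendsto.eventually (gt_mem_nhds hρ)).exists
    exact ⟨n, hn.le⟩
  refine ⟨Nat.find h1, fun j hj => not_le.1 (Nat.find_min h1 hj), fun j hj => ?_⟩
  exact (c_anti.antitone hj).trans (Nat.find_spec h1)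

theorem sum_inv_le {ρ : ℝ} (hρ : 0 < ρ) {N : ℕ} (hN : ∀ j < N, ρ < c j) :
    ∑ j ∈ range N, (c j)⁻¹ ≤ 2 / ρ := by
  rcases N with _ | K
  · simp; positivity
  · refine (sum_inv_c K).trans ?_
    rw [div_eq_mul_inv]
    gcongr
    exact (hN K (Nat.lt_succ_self K)).le

/-- The derivative of `E` at a positive point. -/
noncomputable def E' (q : ℝ) (J : ℕ) : L1 :=
  ∑ j ∈ range J, (-(2 * max 0 (1 - q / c j ^ 2)) * (1 / c j ^ 2)) • (((b j : ℝ) : ℂ) • e j)

theorem hasDerivAt_E {q : ℝ} (hq : 0 < q) : ∃ v : L1, ‖v‖ ≤ 4 / Real.sqrt q ∧ HasDerivAt E v q := by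
  obtain ⟨J, hJ⟩ : ∃ J, c J ^ 2 < q / 2 := by
    have h1 : Tendsto (fun j => c j ^ 2) atTop (𝓝 0) := by
      have := c_tendsto.pow 2
      simpa using this
    exact (h1.eventually (gt_mem_nhds (by positivity))).exists
  refine ⟨E' q J, ?_, ?_⟩
  · have hρ : 0 < Real.sqrt q := Real.sqrt_pos.2 hq
    have hρ2 : Real.sqrt q ^ 2 = q := Real.sq_sqrt hq.le
    obtain ⟨N, hN1, hN2⟩ := exists_N hρ
    have h1 : ‖E' q J‖ ≤ ∑ j ∈ range J, 2 * max 0 (1 - q / c j ^ 2) * (1 / c j ^ 2) * b j := by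
      refine (norm_sum_le _ _).trans (sum_le_sum fun j _ => ?_)
      rw [norm_smul, norm_smul, norm_e, Complex.norm_real, Real.norm_eq_abs, Real.norm_eq_abs,
        abs_of_pos (b_pos j), mul_one, abs_mul, abs_neg, abs_of_nonneg (by positivity),
        abs_of_nonneg (by positivity)]
    have h2 : ∑ j ∈ range J, 2 * max 0 (1 - q / c j ^ 2) * (1 / c j ^ 2) * b j ≤
        ∑ j ∈ range N, 2 * (c j)⁻¹ := by
      have h3 : ∀ j, N ≤ j → max 0 (1 - q / c j ^ 2) = 0 := by
        intro j hj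
        apply max_eq_left
        have h4 := hN2 j hj
        have h5 : c j ^ 2 ≤ q := by rw [← hρ2]; have := c_pos j; gcongr
        rw [sub_nonpos, le_div_iff₀ (by have := c_pos j; positivity), one_mul]
        exact h5
      have h4 : ∑ j ∈ range J, 2 * max 0 (1 - q / c j ^ 2) * (1 / c j ^ 2) * b j ≤
          ∑ j ∈ range (max J N), 2 * max 0 (1 - q / c j ^ 2) * (1 / c j ^ 2) * b j := by
        refine sum_le_sum_of_subset_of_nonneg ?_ fun j _ _ => ?_
        · intro j hj; rw [mem_range] at hj ⊢; exact lt_of_lt_of_le hj (le_max_left _ _)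
        · have := b_pos j; positivity
      have h5 : ∑ j ∈ range N, 2 * max 0 (1 - q / c j ^ 2) * (1 / c j ^ 2) * b j =
          ∑ j ∈ range (max J N), 2 * max 0 (1 - q / c j ^ 2) * (1 / c j ^ 2) * b j := by
        refine sum_subset ?_ fun j _ hj => ?_
        · intro j hj; rw [mem_range] at hj ⊢; exact lt_of_lt_of_le hj (le_max_right _ _)
        · rw [mem_range, not_lt] at hj
          rw [h3 j hj]; ring
      rw [← h5] at h4
      refine h4.trans (sum_le_sum fun j _ => ?_)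
      have hc := c_pos j
      have hb := b_pos j
      have h6 : max 0 (1 - q / c j ^ 2) ≤ 1 := max_le (by norm_num) (by
        have : 0 ≤ q / c j ^ 2 := by positivity
        linarith)
      calc 2 * max 0 (1 - q / c j ^ 2) * (1 / c j ^ 2) * b j ≤ 2 * 1 * (1 / c j ^ 2) * c j := by
            gcongr
            exact b_le_c j
        _ = 2 * (c j)⁻¹ := by field_simp
    rw [← mul_sum] at h2
    have h3 := sum_inv_le hρ hN1
    calc _ ≤ _ := h1
      _ ≤ _ := h2
      _ ≤ 2 * (2 / Real.sqrt q) := by gcongr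
      _ = 4 / Real.sqrt q := by ring
  · have h1 : HasDerivAt (fun q : ℝ => ∑ j ∈ range J, (ph (q / c j ^ 2)) • (((b j : ℝ) : ℂ) • e j))
        (E' q J) q := by
      unfold E'
      refine HasDerivAt.fun_sum fun j _ => ?_
      have h2 : HasDerivAt (fun q : ℝ => q / c j ^ 2) (1 / c j ^ 2) q :=
        (hasDerivAt_id q).div_const _
      have h3 := HasDerivAt.comp (h₂ := ph) (h := fun q : ℝ => q / c j ^ 2) q
        (hasDerivAt_ph (q / c j ^ 2)) h2
      exact h3.smul_const (((b j : ℝ) : ℂ) • e j)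
    refine h1.congr_of_eventuallyEq ?_
    filter_upwards [lt_mem_nhds (half_lt_self hq)] with r hr
    have hr0 : 0 < r := by linarith
    ext k
    rw [E_apply, max_eq_left hr0.le, lp.coeFn_sum, Finset.sum_apply]
    have h3 : ∀ j ∈ range J, ((ph (r / c j ^ 2)) • (((b j : ℝ) : ℂ) • e j) : L1) k =
        if k = j then ((b j * ph (r / c j ^ 2) : ℝ) : ℂ) else 0 := by
      intro j _
      rw [lp.coeFn_smul, Pi.smul_apply, lp.coeFn_smul, Pi.smul_apply, e_apply]
      split_ifs
      · rw [Complex.real_smul, smul_eq_mul]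
        push_cast; ring
      · simp
    rw [sum_congr rfl h3, sum_ite_eq]
    by_cases hk : k < J
    · rw [if_pos (mem_range.2 hk)]
    · rw [if_neg (by rwa [mem_range])]
      have h4 : c k ^ 2 ≤ r := by
        have h5 : c k ≤ c J := c_anti.antitone (not_lt.1 hk)
        have h6 := c_pos k
        have h7 : c k ^ 2 ≤ c J ^ 2 := by gcongr
        linarith
      rw [ph_eq_zero, mul_zero, Complex.ofReal_zero]
      rw [le_div_iff₀ (by have := c_pos k; positivity), one_mul]
      exact h4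

/-- The point `a`. -/
noncomputable def a : L2 := ⟨fun j => ((4 * c j : ℝ) : ℂ), by
  show Memℓp (fun j => ((4 * c j : ℝ) : ℂ)) 2
  rw [memℓp_gen_iff (by norm_num)]
  have h1 : Summable fun j => (4 * c j) ^ 2 := by
    have h2 : Summable fun j => (16 : ℝ) * c j :=  summable_c.mul_left 16
    refine Summable.of_nonneg_of_le (fun j => by positivity) (fun j => ?_) h2
    have h3 : c j ≤ 1 := (c_le j).trans (pow_le_one₀ (by norm_num) (by norm_num))
    have h4 := c_pos j
    nlinarith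
  refine h1.congr fun j => ?_
  rw [Complex.norm_real, Real.norm_eq_abs, abs_of_pos (by have := c_pos j; positivity)]
  simp⟩

theorem a_apply (j : ℕ) : a j = ((4 * c j : ℝ) : ℂ) := rfl

/-- The map. -/
noncomputable def U (x : L2) : L1 := E (‖x - a‖ ^ 2)

theorem U_apply (x : L2) (j : ℕ) : U x j = ((b j * ph (‖x - a‖ ^ 2 / c j ^ 2) : ℝ) : ℂ) := by
  unfold U
  rw [E_apply, max_eq_left (by positivity)]

theorem real_smul_L1 (r : ℝ) (v : L1) : r • v = (r : ℂ) • v := by
  ext j
  show r • v j = (r : ℂ) • v j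
  rw [Complex.real_smul, smul_eq_mul]

open Classical in
/-- The Gateaux derivative. -/
noncomputable def D (x h : L2) : L1 :=
  if hx : 0 < ‖x - a‖ ^ 2 then
    (2 * (inner ℂ (x - a) h).re) • (hasDerivAt_E hx).choose
  else 0

theorem norm_D_le (x h : L2) : ‖D x h‖ ≤ 8 * ‖h‖ := by
  unfold D
  split_ifs with hx
  · have h0 := (hasDerivAt_E hx).choose_spec.1
    have h2 : Real.sqrt (‖x - a‖ ^ 2) = ‖x - a‖ := Real.sqrt_sq (norm_nonneg _)
    have h1 : ‖(hasDerivAt_E hx).choose‖ ≤ 4 / ‖x - a‖ := h0.trans (le_of_eq (by rw [h2]))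
    have h3 : 0 < ‖x - a‖ := by
      by_contra h
      have h4 : ‖x - a‖ = 0 := le_antisymm (not_lt.1 h) (norm_nonneg _)
      rw [h4] at hx
      norm_num at hx
    rw [norm_smul, Real.norm_eq_abs, abs_mul, abs_of_pos (by norm_num : (0 : ℝ) < 2)]
    have h4 : |(inner ℂ (x - a) h).re| ≤ ‖x - a‖ * ‖h‖ :=
      (Complex.abs_re_le_norm _).trans (norm_inner_le_norm _ _)
    calc 2 * |(inner ℂ (x - a) h).re| * ‖(hasDerivAt_E hx).choose‖
        ≤ 2 * (‖x - a‖ * ‖h‖) * (4 / ‖x - a‖) := by gcongr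
      _ = 8 * ‖h‖ := by field_simp; ring
  · rw [norm_zero]; positivity

theorem D_add (x h k : L2) : D x (h + k) = D x h + D x k := by
  unfold D
  split_ifs with hx
  · rw [inner_add_right, Complex.add_re, mul_add, add_smul]
  · rw [add_zero]

theorem D_smul (x : L2) (r : ℝ) (h : L2) : D x ((r : ℂ) • h) = (r : ℂ) • D x h := by
  unfold D
  split_ifs with hx
  · rw [inner_smul_right, Complex.re_ofReal_mul]
    have h1 : 2 * (r * (inner ℂ (x - a) h).re) = r * (2 * (inner ℂ (x - a) h).re) := by ring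
    rw [h1, mul_smul, real_smul_L1 r]
  · rw [smul_zero]

/-- The modulus of continuity at `a` is small. -/
theorem small_at_a {ε : ℝ} (hε : 0 < ε) : ∃ r > 0, ∀ ρ, 0 < ρ → ρ < r →
    ‖E (ρ ^ 2) - E 0‖ ≤ ε * ρ := by
  obtain ⟨J, hJ⟩ := eventually_atTop.1 (del_tendsto.eventually (gt_mem_nhds
    (show (0 : ℝ) < ε / 12 by positivity)))
  set C := ∑ j ∈ range J, (c j)⁻¹ with hC
  have hC0 : 0 ≤ C := sum_nonneg fun j _ => by have := c_pos j; positivity
  refine ⟨min (c J) (ε / (4 * (C + 1))), lt_min (c_pos J) (by positivity), fun ρ hρ hρr => ?_⟩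
  have hρ1 : ρ < c J := hρr.trans_le (min_le_left _ _)
  have hρ2 : ρ < ε / (4 * (C + 1)) := hρr.trans_le (min_le_right _ _)
  obtain ⟨N, hN1, hN2⟩ := exists_N hρ
  have hNJ : J ≤ N := by
    by_contra h
    have := hN2 J (not_le.1 h).le
    linarith
  have hterm : ∀ j, ‖(E (ρ ^ 2) - E 0) j‖ = b j * (1 - ph (ρ ^ 2 / c j ^ 2)) := by
    intro j
    have h1 : (E (ρ ^ 2) - E 0) j = ((-(b j * (1 - ph (ρ ^ 2 / c j ^ 2))) : ℝ) : ℂ) := by
      rw [lp.coeFn_sub, Pi.sub_apply, E_apply, E_apply, max_eq_left (by positivity), max_self,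
        zero_div, ph_zero]
      push_cast; ring
    rw [h1, Complex.norm_real, Real.norm_eq_abs, abs_neg, abs_of_nonneg]
    have h2 := ph_le_one (s := ρ ^ 2 / c j ^ 2) (by positivity)
    exact mul_nonneg (b_pos j).le (by linarith)
  have hsum := summable_L1 (E (ρ ^ 2) - E 0)
  rw [norm_L1, ← hsum.sum_add_tsum_nat_add N]
  have h1 : ∑ j ∈ range N, ‖(E (ρ ^ 2) - E 0) j‖ ≤ 2 * ρ ^ 2 * (C + ε / 12 * (2 / ρ)) := by
    calc ∑ j ∈ range N, ‖(E (ρ ^ 2) - E 0) j‖ ≤ ∑ j ∈ range N, 2 * ρ ^ 2 * (del j * (c j)⁻¹) := by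
          refine sum_le_sum fun j _ => ?_
          rw [hterm, b_eq]
          have h2 := one_sub_ph_le (s := ρ ^ 2 / c j ^ 2) (by positivity)
          have h3 := c_pos j
          have h4 := del_pos j
          calc del j * c j * (1 - ph (ρ ^ 2 / c j ^ 2)) ≤ del j * c j * (2 * (ρ ^ 2 / c j ^ 2)) := by
                gcongr
            _ = 2 * ρ ^ 2 * (del j * (c j)⁻¹) := by field_simp
      _ = 2 * ρ ^ 2 * ∑ j ∈ range N, del j * (c j)⁻¹ := (mul_sum _ _ _).symm
      _ ≤ 2 * ρ ^ 2 * (C + ε / 12 * (2 / ρ)) := by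
          gcongr
          have h2 : ∑ j ∈ range N, del j * (c j)⁻¹ ≤
              ∑ j ∈ range N, ((if j ∈ range J then (c j)⁻¹ else 0) + ε / 12 * (c j)⁻¹) := by
            refine sum_le_sum fun j _ => ?_
            have h3 := c_pos j
            by_cases hj : j < J
            · rw [if_pos (mem_range.2 hj)]
              have h4 : del j * (c j)⁻¹ ≤ 1 * (c j)⁻¹ := by
                gcongr; exact del_le_one j
              have h5 : 0 ≤ ε / 12 * (c j)⁻¹ := by positivity
              linarith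
            · rw [if_neg (by rwa [mem_range]), zero_add]
              gcongr
              exact (hJ j (not_lt.1 hj)).le
          refine h2.trans ?_
          rw [sum_add_distrib, ← mul_sum]
          have h3 : ∑ j ∈ range N, (if j ∈ range J then (c j)⁻¹ else 0) = C := by
            rw [hC, sum_ite_mem]
            congr 1
            rw [inter_eq_right]
            intro j hj
            rw [mem_range] at hj ⊢
            exact lt_of_lt_of_le hj hNJ
          rw [h3]
          gcongr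
          exact sum_inv_le hρ hN1
  have h2 : ∑' j, ‖(E (ρ ^ 2) - E 0) (j + N)‖ ≤ ε / 12 * (2 * ρ) := by
    refine Real.tsum_le_of_sum_range_le (fun j => norm_nonneg _) fun n => ?_
    calc ∑ j ∈ range n, ‖(E (ρ ^ 2) - E 0) (j + N)‖ ≤ ∑ j ∈ range n, ε / 12 * c (N + j) := by
          refine sum_le_sum fun j _ => ?_
          rw [hterm, add_comm j N, b_eq]
          have h3 := c_pos (N + j)
          have h4 := del_pos (N + j)
          have h5 := ph_nonneg (ρ ^ 2 / c (N + j) ^ 2)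
          calc del (N + j) * c (N + j) * (1 - ph (ρ ^ 2 / c (N + j) ^ 2))
              ≤ del (N + j) * c (N + j) * 1 := by gcongr; linarith
            _ = del (N + j) * c (N + j) := mul_one _
            _ ≤ ε / 12 * c (N + j) := by
                gcongr
                exact (hJ (N + j) (by omega)).le
      _ = ε / 12 * ∑ j ∈ range n, c (N + j) := (mul_sum _ _ _).symm
      _ ≤ ε / 12 * (2 * ρ) := by
          gcongr
          exact (tail_c N n).trans (by have := hN2 N le_rfl; linarith)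
  have h3 : 2 * ρ ^ 2 * (C + ε / 12 * (2 / ρ)) = 2 * ρ ^ 2 * C + ε / 3 * ρ := by
    field_simp
    ring
  have h4 : 2 * ρ ^ 2 * C ≤ ε / 2 * ρ := by
    rw [lt_div_iff₀ (by positivity)] at hρ2
    nlinarith
  rw [h3] at h1
  nlinarith

theorem hasDerivAt_U (x h : L2) :
    HasDerivAt (fun t : ℝ => U (x + (t : ℂ) • h)) (D x h) 0 := by
  by_cases hx : 0 < ‖x - a‖ ^ 2
  · have h1 : HasDerivAt (fun t : ℝ => ‖x + (t : ℂ) • h - a‖ ^ 2)
        (2 * (inner ℂ (x - a) h).re) 0 := by
      have h2 : (fun t : ℝ => ‖x + (t : ℂ) • h - a‖ ^ 2) =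
          fun t : ℝ => ‖x - a‖ ^ 2 + t * (2 * (inner ℂ (x - a) h).re) + t ^ 2 * ‖h‖ ^ 2 := by
        funext t
        have h3 : x + (t : ℂ) • h - a = (x - a) + (t : ℂ) • h := by abel
        rw [h3, @norm_add_sq ℂ, inner_smul_right, norm_smul, Complex.norm_real, mul_pow,
          Real.norm_eq_abs, sq_abs]
        have h4 : RCLike.re ((t : ℂ) * inner ℂ (x - a) h) = t * (inner ℂ (x - a) h).re :=
          Complex.re_ofReal_mul _ _
        rw [h4]; ring
      rw [h2]
      have h3 : HasDerivAt (fun t : ℝ => ‖x - a‖ ^ 2 + t * (2 * (inner ℂ (x - a) h).re))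
          (1 * (2 * (inner ℂ (x - a) h).re)) 0 :=
        ((hasDerivAt_id (0 : ℝ)).mul_const _).const_add _
      have h4 : HasDerivAt (fun t : ℝ => t ^ 2 * ‖h‖ ^ 2) (2 * (0 : ℝ) * ‖h‖ ^ 2) 0 := by
        have := (hasDerivAt_pow 2 (0 : ℝ)).mul_const (‖h‖ ^ 2)
        simpa using this
      have h5 := h3.fun_add h4
      rw [one_mul, mul_zero, zero_mul, add_zero] at h5
      exact h5
    have h2 := (hasDerivAt_E hx).choose_spec.2
    have h3 : HasDerivAt E (hasDerivAt_E hx).choose (‖x + ((0 : ℝ) : ℂ) • h - a‖ ^ 2) := by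
      rw [Complex.ofReal_zero, zero_smul, add_zero]
      exact h2
    have h4 := HasDerivAt.scomp (0 : ℝ) h3 h1
    unfold D
    rw [dif_pos hx]
    exact h4
  · have hxa : x - a = 0 := by
      have : ‖x - a‖ ^ 2 = 0 := le_antisymm (not_lt.1 hx) (by positivity)
      exact norm_eq_zero.1 (pow_eq_zero_iff (two_ne_zero) |>.1 this)
    have hD : D x h = 0 := by
      unfold D
      rw [dif_neg hx]
    rw [hD, hasDerivAt_iff_isLittleO, Asymptotics.isLittleO_iff]
    intro ε hε
    by_cases hh : h = 0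
    · filter_upwards with t
      rw [hh]; simp
      positivity
    · have hh' : 0 < ‖h‖ := norm_pos_iff.2 hh
      obtain ⟨r, hr, H⟩ := small_at_a (ε := ε / ‖h‖) (by positivity)
      filter_upwards [Metric.ball_mem_nhds (0 : ℝ) (ε := r / ‖h‖) (by positivity)] with t ht
      rw [Metric.mem_ball, dist_zero_right, Real.norm_eq_abs] at ht
      have h1 : U (x + (t : ℂ) • h) = E ((|t| * ‖h‖) ^ 2) := by
        unfold U
        have h3 : x + (t : ℂ) • h - a = (x - a) + (t : ℂ) • h := by abel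
        rw [h3, hxa, zero_add, norm_smul, Complex.norm_real, Real.norm_eq_abs]
      have h2 : U (x + ((0 : ℝ) : ℂ) • h) = E 0 := by
        unfold U
        rw [Complex.ofReal_zero, zero_smul, add_zero, hxa, norm_zero]
        norm_num
      rw [h1, h2, smul_zero, sub_zero, sub_zero, Real.norm_eq_abs]
      by_cases ht0 : t = 0
      · rw [ht0]; simp
      · have ht' : 0 < |t| := abs_pos.2 ht0
        have h3 := H (|t| * ‖h‖) (by positivity) (by
          rwa [lt_div_iff₀ hh'] at ht)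
        calc _ ≤ ε / ‖h‖ * (|t| * ‖h‖) := h3
          _ = ε * |t| := by field_simp

theorem lipschitz_U (x y : L2) : ‖U x - U y‖ ≤ 8 * ‖x - y‖ := by
  have h1 : ∀ t₀ : ℝ, HasDerivAt (fun t : ℝ => U (y + (t : ℂ) • (x - y)))
      (D (y + (t₀ : ℂ) • (x - y)) (x - y)) t₀ := by
    intro t₀
    have h2 := hasDerivAt_U (y + (t₀ : ℂ) • (x - y)) (x - y)
    have h3 : HasDerivAt (fun s : ℝ => s - t₀) 1 t₀ := (hasDerivAt_id t₀).sub_const t₀
    have h4 : HasDerivAt (fun t : ℝ => U (y + (t₀ : ℂ) • (x - y) + (t : ℂ) • (x - y)))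
      (D (y + (t₀ : ℂ) • (x - y)) (x - y)) (t₀ - t₀) := by rw [sub_self]; exact h2
    have h5 := HasDerivAt.scomp (h := fun s : ℝ => s - t₀) t₀ h4 h3
    rw [one_smul] at h5
    have h6 : (fun t : ℝ => U (y + (t : ℂ) • (x - y))) =
        (fun t : ℝ => U (y + (t₀ : ℂ) • (x - y) + (t : ℂ) • (x - y))) ∘ fun s : ℝ => s - t₀ := by
      funext t
      simp only [Function.comp]
      congr 1
      rw [add_assoc, ← add_smul]
      congr 2
      push_cast; ring
    rw [h6]
    exact h5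
  have h2 := norm_image_sub_le_of_norm_deriv_le_segment_01'
    (f := fun t : ℝ => U (y + (t : ℂ) • (x - y))) (C := 8 * ‖x - y‖)
    (fun t _ => (h1 t).hasDerivWithinAt) (fun t _ => norm_D_le _ _)
  simpa using h2

theorem gateaux_U : RealGateauxDifferentiable U := by
  intro x
  refine ⟨D x, D_add x, D_smul x, ⟨8, norm_D_le x⟩, fun h => ?_⟩
  have h1 := (hasDerivAt_iff_tendsto_slope.1 (hasDerivAt_U x h))
  refine h1.congr fun t => ?_
  rw [slope_def_module, real_smul_L1]
  simp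

/-- The weights of the small spaces: the inclusion of `ℓ_p(64 ^ j)` in `ℓ_p`, where the former
space is identified with `ℓ_p` by multiplication with `64 ^ j`. -/
noncomputable def inc (p : ENNReal) [Fact (1 ≤ p)] :
    lp (fun _ : ℕ => ℂ) p →L[ℂ] lp (fun _ : ℕ => ℂ) p :=
  LinearMap.mkContinuous
    { toFun := fun y => ⟨fun j => ((64 : ℂ) ^ j)⁻¹ * y j, by
        have h1 : Memℓp (fun j => ‖y j‖) p := memℓp_norm_iff.2 (lp.memℓp y)
        refine Memℓp.mono h1 fun j => ?_
        rw [norm_mul, norm_inv, norm_pow]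
        apply mul_le_of_le_one_left (norm_nonneg _)
        apply inv_le_one_of_one_le₀
        apply one_le_pow₀
        norm_num⟩
      map_add' := fun x y => by
        ext j
        show ((64 : ℂ) ^ j)⁻¹ * (x j + y j) = ((64 : ℂ) ^ j)⁻¹ * x j + ((64 : ℂ) ^ j)⁻¹ * y j
        ring
      map_smul' := fun r x => by
        ext j
        show ((64 : ℂ) ^ j)⁻¹ * (r * x j) = r * (((64 : ℂ) ^ j)⁻¹ * x j)
        ring } 1 (fun y => by
    rw [one_mul]
    refine lp.norm_mono (zero_lt_one.trans_le Fact.out).ne' fun j => ?_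
    show ‖((64 : ℂ) ^ j)⁻¹ * y j‖ ≤ ‖y j‖
    rw [norm_mul, norm_inv, norm_pow]
    apply mul_le_of_le_one_left (norm_nonneg _)
    apply inv_le_one_of_one_le₀
    apply one_le_pow₀
    norm_num)

theorem inc_apply (p : ENNReal) [Fact (1 ≤ p)] (y : lp (fun _ : ℕ => ℂ) p) (j : ℕ) :
    inc p y j = ((64 : ℂ) ^ j)⁻¹ * y j := rfl

theorem inc_injective (p : ENNReal) [Fact (1 ≤ p)] : Function.Injective (inc p) := by
  intro x y h
  ext j
  have h1 := congrArg (fun z : lp (fun _ : ℕ => ℂ) p => z j) h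
  simp only [inc_apply] at h1
  exact mul_left_cancel₀ (inv_ne_zero (pow_ne_zero _ (by norm_num))) h1

theorem bounded_U (y : L2) : ∃ y' : L1, inc 1 y' = U (inc 2 y) ∧ ‖y'‖ ≤ 1 * ‖y‖ := by
  set x := inc 2 y with hx
  have hcoord : ∀ j, ‖x j - a j‖ ≤ ‖x - a‖ := fun j => by
    have := lp.norm_apply_le_norm (p := 2) (by norm_num) (x - a) j
    rwa [lp.coeFn_sub, Pi.sub_apply] at this
  have hxa : 0 < ‖x - a‖ := by
    rw [norm_pos_iff, sub_ne_zero]
    intro h
    -- the point `a` is not in the small space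
    have h1 : ∀ j : ℕ, (4 : ℝ) * 4 ^ j ≤ ‖y‖ := by
      intro j
      have h2 := lp.norm_apply_le_norm (p := 2) (by norm_num) y j
      have h3 : x j = a j := by rw [h]
      rw [hx, inc_apply, a_apply] at h3
      have h4 : y j = ((64 ^ j * (4 * c j) : ℝ) : ℂ) := by
        have h5 : ((64 : ℂ) ^ j) ≠ 0 := pow_ne_zero _ (by norm_num)
        have h6 : y j = (64 : ℂ) ^ j * (((64 : ℂ) ^ j)⁻¹ * y j) := by
          rw [← mul_assoc, mul_inv_cancel₀ h5, one_mul]
        rw [h6, h3]; push_cast; ring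
      rw [h4, Complex.norm_real, Real.norm_eq_abs, abs_of_pos (by have := c_pos j; positivity)] at h2
      refine le_trans ?_ h2
      have h7 : (64 : ℝ) ^ j * c j = 8 ^ j * g j := by
        unfold c
        have : (64 : ℝ) ^ j = 8 ^ j * 8 ^ j := by rw [← mul_pow]; norm_num
        rw [this]; field_simp
      have h8 : (1 / 2 : ℝ) ^ j ≤ g j := by
        have h9 : b j ≤ c j := b_le_c j
        unfold b c at h9
        rw [div_le_div_iff_of_pos_right (by positivity)] at h9
        refine le_trans ?_ h9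
        rw [one_div, inv_pow, one_div]
        apply inv_anti₀ (by positivity)
        have := Nat.lt_two_pow_self (n := j)
        exact_mod_cast this
      have h10 : (4 : ℝ) ^ j ≤ 8 ^ j * g j := by
        calc (4 : ℝ) ^ j = 8 ^ j * (1 / 2) ^ j := by rw [← mul_pow]; norm_num
          _ ≤ 8 ^ j * g j := by gcongr
      rw [← h7] at h10
      linarith
    obtain ⟨j, hj⟩ := pow_unbounded_of_one_lt ‖y‖ (by norm_num : (1 : ℝ) < 4)
    have := h1 j
    have h4 : (0 : ℝ) < 4 ^ j := by positivity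
    linarith
  obtain ⟨N, hN1, hN2⟩ := exists_N hxa
  have hzero : ∀ j, N ≤ j → U x j = 0 := by
    intro j hj
    rw [U_apply, ph_eq_zero, mul_zero, Complex.ofReal_zero]
    have h1 := hN2 j hj
    have h2 := c_pos j
    rw [le_div_iff₀ (by positivity), one_mul]
    gcongr
  have hnorm : ∀ j, ‖(64 : ℂ) ^ j * U x j‖ ≤ 64 ^ j * b j := by
    intro j
    rw [norm_mul, norm_pow, U_apply, Complex.norm_real, Real.norm_eq_abs, abs_of_nonneg
      (mul_nonneg (b_pos j).le (ph_nonneg _))]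
    have h1 : ph (‖x - a‖ ^ 2 / c j ^ 2) ≤ 1 := ph_le_one (by positivity)
    have h2 := b_pos j
    have h3 : ‖(64 : ℂ)‖ = 64 := by norm_num
    rw [h3]
    gcongr
    exact mul_le_of_le_one_right h2.le h1
  have hsupp : ∀ j ∉ range N, ‖(64 : ℂ) ^ j * U x j‖ = 0 := by
    intro j hj
    rw [hzero j (by rwa [mem_range, not_lt] at hj), mul_zero, norm_zero]
  refine ⟨⟨fun j => (64 : ℂ) ^ j * U x j, mem_L1 (summable_of_ne_finset_zero hsupp)⟩, ?_, ?_⟩
  · ext j
    rw [inc_apply]
    show ((64 : ℂ) ^ j)⁻¹ * ((64 : ℂ) ^ j * U x j) = U x j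
    rw [← mul_assoc, inv_mul_cancel₀ (pow_ne_zero _ (by norm_num)), one_mul]
  · rw [norm_L1, one_mul]
    have h1 : ∑' j, ‖(64 : ℂ) ^ j * U x j‖ ≤ ∑ j ∈ range N, 64 ^ j * b j := by
      rw [tsum_eq_sum hsupp]
      exact sum_le_sum fun j _ => hnorm j
    refine h1.trans ?_
    rcases N with _ | K
    · simp
    · refine (sum_weights K).trans ?_
      have h2 := hcoord K
      have h3 := hN1 K (Nat.lt_succ_self K)
      have h4 : 3 * c K ≤ ‖x K‖ := by
        have h5 : ‖a K‖ ≤ ‖x K‖ + ‖x K - a K‖ := by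
          have : a K = x K - (x K - a K) := by ring
          calc ‖a K‖ = ‖x K - (x K - a K)‖ := by rw [← this]
            _ ≤ _ := norm_sub_le _ _
        have hak : ‖a K‖ = 4 * c K := by
          rw [a_apply, Complex.norm_real, Real.norm_eq_abs,
            abs_of_pos (by have := c_pos K; positivity)]
        linarith
      have h5 : 64 ^ K * ‖x K‖ = ‖y K‖ := by
        rw [hx, inc_apply, norm_mul, norm_inv, norm_pow]
        have h3 : ‖(64 : ℂ)‖ = 64 := by norm_num
        rw [h3, ← mul_assoc, mul_inv_cancel₀ (by positivity), one_mul]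
      have h6 := lp.norm_apply_le_norm (p := 2) (by norm_num) y K
      have h7 := b_le_c K
      have h8 : (0 : ℝ) < 64 ^ K := by positivity
      calc 2 * (64 ^ K * b K) ≤ 64 ^ K * ‖x K‖ := by nlinarith [c_pos K]
        _ = ‖y K‖ := h5
        _ ≤ ‖y‖ := h6

end Maps

section NotIn

/-- The coordinate functionals of `ℓ₁`. -/
noncomputable def co (j : ℕ) : L1 →L[ℂ] ℂ :=
  LinearMap.mkContinuous
    { toFun := fun x => x j
      map_add' := fun _ _ => rfl
      map_smul' := fun _ _ => rfl } 1 (fun x => by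
        rw [one_mul]; exact lp.norm_apply_le_norm (by norm_num) x j)

theorem co_apply (j : ℕ) (x : L1) : co j x = x j := rfl

theorem sum_le_norm (x : L1) (N : ℕ) : ∑ j ∈ range N, ‖x j‖ ≤ ‖x‖ := by
  rw [norm_L1]
  exact (summable_L1 x).sum_le_tsum _ fun _ _ => norm_nonneg _

theorem Ua_apply (j : ℕ) : U a j = ((b j : ℝ) : ℂ) := by
  rw [U_apply, sub_self, norm_zero]
  norm_num
  rw [ph_zero]; norm_num

theorem not_mem : U a ∉ InterpSpace (inc 1) (1 / 2 : ℝ) := by
  rintro ⟨f, ⟨hcont, ⟨C, hC⟩, hdiff, -, g₁, hg1, hg2, hg3⟩, hf⟩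
  obtain ⟨C', hC'⟩ : ∃ C', ∀ t, ‖g₁ t‖ ≤ C' := by
    obtain ⟨C', h⟩ := ZeroAtInftyContinuousMap.isBounded_range
      (⟨⟨g₁, hg1⟩, hg2⟩ : ZeroAtInftyContinuousMap ℝ L1) |>.exists_norm_le
    exact ⟨C', fun t => h _ ⟨t, rfl⟩⟩
  set l : ℝ := Real.log 64 with hl
  have hexp : ∀ (z : ℂ) (j : ℕ), ‖Complex.exp (z * (l * j))‖ = Real.exp (z.re * (l * j)) := by
    intro z j
    rw [Complex.norm_exp]
    congr 1
    have : z * ((l : ℂ) * (j : ℂ)) = z * ((l * j : ℝ) : ℂ) := by push_cast; ring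
    rw [this, Complex.re_mul_ofReal]
  have key : ∀ N : ℕ, ∑ j ∈ range N, 1 / ((j : ℝ) + 1) ≤
      C ^ (1 - 1 / 2 : ℝ) * C' ^ (1 / 2 : ℝ) := by
    intro N
    set h : ℂ → ℂ := fun z => ∑ j ∈ range N, Complex.exp (z * (l * j)) * co j (f z) with hh
    have hexpc : ∀ j : ℕ, Continuous fun z : ℂ => Complex.exp (z * (l * j)) := fun j => by fun_prop
    have hexpd : ∀ j : ℕ, Differentiable ℂ fun z : ℂ => Complex.exp (z * (l * j)) :=
      fun j => by fun_prop
    have h1 : ContinuousOn h {z | 0 ≤ z.re ∧ z.re ≤ 1} := by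
      refine continuousOn_finsetSum _ fun j _ => ?_
      exact (hexpc j).continuousOn.mul ((co j).continuous.comp_continuousOn hcont)
    have h2 : DifferentiableOn ℂ h {z | 0 < z.re ∧ z.re < 1} := by
      refine DifferentiableOn.fun_sum fun j _ => ?_
      exact (hexpd j).differentiableOn.mul ((co j).differentiable.comp_differentiableOn hdiff)
    have hbd : ∀ z : ℂ, 0 ≤ z.re → z.re ≤ 1 → ‖h z‖ ≤ ∑ j ∈ range N, 64 ^ j * C := by
      intro z hz0 hz1
      refine (norm_sum_le _ _).trans (sum_le_sum fun j _ => ?_)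
      rw [norm_mul, hexp, co_apply]
      have h3 : Real.exp (z.re * (l * j)) ≤ 64 ^ j := by
        have h4 : (64 : ℝ) ^ j = Real.exp (l * j) := by
          rw [hl, mul_comm, ← Real.log_pow, Real.exp_log (by positivity)]
        rw [h4]
        apply Real.exp_le_exp.2
        have h5 : 0 ≤ l * j := mul_nonneg (Real.log_nonneg (by norm_num)) (Nat.cast_nonneg j)
        nlinarith
      have h4 : ‖f z j‖ ≤ C := (lp.norm_apply_le_norm (by norm_num) _ _).trans (hC z hz0 hz1)
      gcongr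
    have h3 := Complex.HadamardThreeLines.norm_le_interp_of_mem_verticalClosedStrip' (f := h)
      (z := ((1 / 2 : ℝ) : ℂ)) (a := C) (b := C') (l := 0) (u := 1) zero_lt_one ?_ ?_ ?_ ?_ ?_
    · rw [Complex.ofReal_re, sub_zero, sub_zero, div_one] at h3
      refine le_trans ?_ h3
      have h4 : h ((1 / 2 : ℝ) : ℂ) = ((∑ j ∈ range N, 1 / ((j : ℝ) + 1) : ℝ) : ℂ) := by
        rw [hh]
        simp only
        rw [Complex.ofReal_sum]
        refine sum_congr rfl fun j _ => ?_
        have h5 : co j (f ((1 / 2 : ℝ) : ℂ)) = ((b j : ℝ) : ℂ) := by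
          rw [co_apply, hf, Ua_apply]
        have h6 : Complex.exp ((((1 / 2 : ℝ) : ℂ)) * (l * j)) = ((8 ^ j : ℝ) : ℂ) := by
          have h7 : (((1 / 2 : ℝ) : ℂ)) * (l * j) = ((Real.log 8 * j : ℝ) : ℂ) := by
            have h8 : l = 2 * Real.log 8 := by
              rw [hl]
              have : (64 : ℝ) = 8 ^ 2 := by norm_num
              rw [this, Real.log_pow]; norm_num
            rw [h8]; push_cast; ring
          rw [h7, ← Complex.ofReal_exp]
          congr 1
          rw [mul_comm, ← Real.log_pow, Real.exp_log (by positivity)]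
        rw [h5, h6, ← Complex.ofReal_mul]
        congr 1
        unfold b
        field_simp
      rw [h4, Complex.norm_real]
      exact le_abs_self _
    · constructor
      · rw [Complex.ofReal_re]; norm_num
      · rw [Complex.ofReal_re]; norm_num
    · refine ⟨h2.mono fun z hz => hz, h1.mono ?_⟩
      refine closure_minimal (fun z hz => ⟨hz.1.le, hz.2.le⟩) ?_
      exact (isClosed_le continuous_const Complex.continuous_re).inter
        (isClosed_le Complex.continuous_re continuous_const)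
    · refine ⟨∑ j ∈ range N, 64 ^ j * C, ?_⟩
      rintro _ ⟨z, hz, rfl⟩
      exact hbd z hz.1 hz.2
    · intro z hz
      have hz0 : z.re = 0 := hz
      calc ‖h z‖ ≤ ∑ j ∈ range N, ‖f z j‖ := by
            refine (norm_sum_le _ _).trans (sum_le_sum fun j _ => ?_)
            rw [norm_mul, hexp, hz0, zero_mul, Real.exp_zero, one_mul, co_apply]
        _ ≤ ‖f z‖ := sum_le_norm _ _
        _ ≤ C := hC z hz0.ge (by rw [hz0]; norm_num)
    · intro z hz
      have hz1 : z.re = 1 := hz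
      have hz2 : z = 1 + (z.im : ℂ) * Complex.I := by
        apply Complex.ext
        · simp [hz1]
        · simp
      calc ‖h z‖ ≤ ∑ j ∈ range N, ‖g₁ z.im j‖ := by
            refine (norm_sum_le _ _).trans (sum_le_sum fun j _ => ?_)
            have h4 : f z = inc 1 (g₁ z.im) := by
              rw [hg3]; exact congrArg f hz2
            rw [norm_mul, hexp, hz1, one_mul, co_apply, h4, inc_apply, norm_mul, norm_inv,
              norm_pow]
            have h5 : Real.exp (l * j) = 64 ^ j := by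
              rw [hl, mul_comm, ← Real.log_pow, Real.exp_log (by positivity)]
            have h6 : ‖(64 : ℂ)‖ = 64 := by norm_num
            rw [h5, h6, ← mul_assoc, mul_inv_cancel₀ (by positivity), one_mul]
        _ ≤ ‖g₁ z.im‖ := sum_le_norm _ _
        _ ≤ C' := hC' _
  obtain ⟨N, hN⟩ := (Real.tendsto_sum_range_one_div_nat_succ_atTop.eventually_gt_atTop
    (C ^ (1 - 1 / 2 : ℝ) * C' ^ (1 / 2 : ℝ))).exists
  linarith [key N]

end NotIn

section IsIn

/-- The unit vectors of `ℓ₂`. -/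
noncomputable def e2 (j : ℕ) : L2 := lp.single 2 j (1 : ℂ)

theorem e2_apply (j k : ℕ) : e2 j k = if k = j then 1 else 0 := by
  unfold e2
  by_cases h : k = j
  · subst h; simp
  · rw [if_neg h, lp.single_apply_ne _ _ _ h]

theorem mem_g : Memℓp (fun j => ((g j : ℝ) : ℂ)) 2 := by
  rw [memℓp_gen_iff (by norm_num)]
  refine summable_g_sq.congr fun j => ?_
  rw [Complex.norm_real, Real.norm_eq_abs, abs_of_pos (g_pos j)]
  simp

/-- The vector `g` in `ℓ₂`. -/
noncomputable def gv : L2 := ⟨fun j => ((g j : ℝ) : ℂ), mem_g⟩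

theorem gv_apply (j : ℕ) : gv j = ((g j : ℝ) : ℂ) := rfl

open Classical in
/-- The power series with coefficients `g j • e2 j`. -/
noncomputable def Ph (w : ℂ) : L2 :=
  if h : ‖w‖ ≤ 1 then
    ⟨fun j => w ^ j * ((g j : ℝ) : ℂ), by
      refine Memℓp.mono (memℓp_norm_iff.2 mem_g) fun j => ?_
      rw [norm_mul, norm_pow]
      exact mul_le_of_le_one_left (norm_nonneg _) (pow_le_one₀ (norm_nonneg _) h)⟩
  else 0

theorem Ph_apply {w : ℂ} (h : ‖w‖ ≤ 1) (j : ℕ) : Ph w j = w ^ j * ((g j : ℝ) : ℂ) := by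
  unfold Ph
  rw [dif_pos h]

theorem norm_Ph_le (w : ℂ) : ‖Ph w‖ ≤ ‖gv‖ := by
  by_cases h : ‖w‖ ≤ 1
  · refine lp.norm_mono (by norm_num) fun j => ?_
    rw [Ph_apply h, norm_mul, norm_pow, gv_apply]
    exact mul_le_of_le_one_left (norm_nonneg _) (pow_le_one₀ (norm_nonneg _) h)
  · unfold Ph
    rw [dif_neg h, norm_zero]
    positivity

theorem tendsto_Ph : TendstoUniformlyOn
    (fun (N : ℕ) (w : ℂ) => ∑ j ∈ range N, w ^ j • (((g j : ℝ) : ℂ) • e2 j)) Ph atTop
    {w | ‖w‖ ≤ 1} := by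
  have h1 : HasSum (fun j => lp.single 2 j (gv j)) gv := lp.hasSum_single (by norm_num) gv
  have h2 := h1.tendsto_sum_nat
  rw [tendsto_iff_norm_sub_tendsto_zero] at h2
  rw [Metric.tendstoUniformlyOn_iff]
  intro ε hε
  filter_upwards [h2.eventually (gt_mem_nhds hε)] with N hN w hw
  refine lt_of_le_of_lt ?_ hN
  rw [dist_comm, dist_eq_norm]
  refine lp.norm_mono (by norm_num) fun k => ?_
  rw [lp.coeFn_sub, Pi.sub_apply, lp.coeFn_sum, Finset.sum_apply, lp.coeFn_sub, Pi.sub_apply,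
    lp.coeFn_sum, Finset.sum_apply, Ph_apply hw, gv_apply]
  have h3 : ∀ j ∈ range N, (w ^ j • (((g j : ℝ) : ℂ) • e2 j) : L2) k =
      if k = j then w ^ j * ((g j : ℝ) : ℂ) else 0 := by
    intro j _
    show w ^ j * (((g j : ℝ) : ℂ) * e2 j k) = _
    rw [e2_apply]
    split_ifs <;> simp
  have h4 : ∀ j ∈ range N, (lp.single 2 j (gv j) : L2) k =
      if k = j then ((g j : ℝ) : ℂ) else 0 := by
    intro j _
    by_cases h : k = j
    · subst h
      rw [if_pos rfl, lp.single_apply_self, gv_apply]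
    · rw [if_neg h, lp.single_apply_ne _ _ _ h]
  rw [sum_congr rfl h3, sum_congr rfl h4, sum_ite_eq, sum_ite_eq]
  split_ifs
  · simp
  · rw [zero_sub, zero_sub, norm_neg, norm_neg, norm_mul, norm_pow]
    exact mul_le_of_le_one_left (norm_nonneg _) (pow_le_one₀ (norm_nonneg _) hw)

theorem continuousOn_Ph : ContinuousOn Ph {w | ‖w‖ ≤ 1} := by
  refine tendsto_Ph.continuousOn (Eventually.frequently (Eventually.of_forall fun N => ?_))
  refine continuousOn_finsetSum _ fun j _ => ?_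
  exact ((continuous_pow j).smul continuous_const).continuousOn

theorem differentiableOn_Ph : DifferentiableOn ℂ Ph {w | ‖w‖ < 1} := by
  have h1 : IsOpen {w : ℂ | ‖w‖ < 1} := isOpen_lt continuous_norm continuous_const
  have h2 : TendstoLocallyUniformlyOn
    (fun (N : ℕ) (w : ℂ) => ∑ j ∈ range N, w ^ j • (((g j : ℝ) : ℂ) • e2 j)) Ph atTop
    {w | ‖w‖ < 1} := (tendsto_Ph.mono fun w (hw : ‖w‖ < 1) => hw.le).tendstoLocallyUniformlyOn
  refine h2.differentiableOn (Eventually.of_forall fun N => ?_) h1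
  refine DifferentiableOn.fun_sum fun j _ => ?_
  exact ((differentiable_pow j).smul_const _).differentiableOn

/-- The function `64 ^ (-z)`. -/
noncomputable def wz (z : ℂ) : ℂ := Complex.exp (-(z * (Real.log 64 : ℝ)))

theorem norm_wz (z : ℂ) : ‖wz z‖ = Real.exp (-(z.re * Real.log 64)) := by
  unfold wz
  rw [Complex.norm_exp, Complex.neg_re, Complex.re_mul_ofReal]

theorem norm_wz_le {z : ℂ} (hz : 0 ≤ z.re) : ‖wz z‖ ≤ 1 := by
  rw [norm_wz, Real.exp_le_one_iff, neg_nonpos]
  exact mul_nonneg hz (Real.log_nonneg (by norm_num))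

theorem norm_wz_lt {z : ℂ} (hz : 0 < z.re) : ‖wz z‖ < 1 := by
  rw [norm_wz, Real.exp_lt_one_iff, neg_lt_zero]
  exact mul_pos hz (Real.log_pos (by norm_num))

theorem continuous_wz : Continuous wz := by unfold wz; fun_prop

theorem differentiable_wz : Differentiable ℂ wz := by unfold wz; fun_prop

/-- The damping factor. -/
noncomputable def da (z : ℂ) : ℂ := 4 * Complex.exp (z ^ 2 - 1 / 4)

theorem norm_da (z : ℂ) : ‖da z‖ = 4 * Real.exp (z.re ^ 2 - z.im ^ 2 - 1 / 4) := by
  unfold da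
  rw [norm_mul, Complex.norm_exp]
  have h1 : ‖(4 : ℂ)‖ = 4 := by norm_num
  rw [h1]
  congr 2
  rw [Complex.sub_re, sq, Complex.mul_re]
  norm_num
  ring

theorem continuous_da : Continuous da := by unfold da; fun_prop

theorem differentiable_da : Differentiable ℂ da := by unfold da; fun_prop

theorem tendsto_da (x : ℝ) : Tendsto (fun t : ℝ => ‖da (x + t * Complex.I)‖) (cocompact ℝ) (𝓝 0) := by
  have h1 : (fun t : ℝ => ‖da (x + t * Complex.I)‖) =
      fun t : ℝ => (4 * Real.exp (x ^ 2 - 1 / 4)) * Real.exp (-t ^ 2) := by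
    funext t
    rw [norm_da, mul_assoc, ← Real.exp_add]
    congr 2
    simp
    ring
  rw [h1]
  have h2 : Tendsto (fun t : ℝ => Real.exp (-t ^ 2)) (cocompact ℝ) (𝓝 0) := by
    apply Real.tendsto_exp_atBot.comp
    apply tendsto_neg_atTop_atBot.comp
    have h3 : Tendsto (fun t : ℝ => ‖t‖ ^ 2) (cocompact ℝ) atTop :=
      (tendsto_pow_atTop two_ne_zero).comp (tendsto_norm_cocompact_atTop)
    refine h3.congr fun t => ?_
    rw [Real.norm_eq_abs, sq_abs]
  simpa using h2.const_mul (4 * Real.exp (x ^ 2 - 1 / 4))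

theorem a_mem : a ∈ InterpSpace (inc 2) (1 / 2 : ℝ) := by
  have hprodt : ∀ (x : ℝ) (F : ℝ → L2), (∀ t, ‖F t‖ ≤ ‖gv‖) →
      Tendsto (fun t : ℝ => da (x + t * Complex.I) • F t) (cocompact ℝ) (𝓝 0) := by
    intro x F hF
    rw [tendsto_zero_iff_norm_tendsto_zero]
    have h1 := (tendsto_da x).mul_const ‖gv‖
    rw [zero_mul] at h1
    refine squeeze_zero (fun t => norm_nonneg _) (fun t => ?_) h1
    rw [norm_smul]
    gcongr
    exact hF t
  refine ⟨fun z => da z • Ph (wz z), ⟨?_, ⟨4 * Real.exp 1 * ‖gv‖, ?_⟩, ?_, ?_, ?_⟩, ?_⟩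
  · refine continuous_da.continuousOn.smul (continuousOn_Ph.comp continuous_wz.continuousOn ?_)
    intro z hz
    exact norm_wz_le hz.1
  · intro z hz0 hz1
    rw [norm_smul]
    have h1 : ‖da z‖ ≤ 4 * Real.exp 1 := by
      rw [norm_da]
      gcongr
      nlinarith [sq_nonneg z.im]
    have h2 := norm_Ph_le (wz z)
    gcongr
  · refine differentiable_da.differentiableOn.smul
      (differentiableOn_Ph.comp differentiable_wz.differentiableOn ?_)
    intro z hz
    exact norm_wz_lt hz.1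
  · have h1 := hprodt 0 (fun t => Ph (wz (t * Complex.I))) (fun t => norm_Ph_le _)
    simpa using h1
  · refine ⟨fun t => da ((1 : ℝ) + t * Complex.I) • Ph (wz (t * Complex.I)), ?_,
      hprodt 1 _ (fun t => norm_Ph_le _), ?_⟩
    · refine Continuous.smul (continuous_da.comp (by fun_prop)) ?_
      refine continuousOn_Ph.comp_continuous (continuous_wz.comp (by fun_prop)) fun t => ?_
      exact norm_wz_le (by simp)
    · intro t
      ext j
      have h1 : ‖wz (t * Complex.I)‖ ≤ 1 := norm_wz_le (by simp)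
      have h2 : ‖wz (1 + t * Complex.I)‖ ≤ 1 := norm_wz_le (by simp)
      rw [inc_apply]
      show ((64 : ℂ) ^ j)⁻¹ * (da ((1 : ℝ) + t * Complex.I) * Ph (wz (t * Complex.I)) j) =
        da (1 + t * Complex.I) * Ph (wz (1 + t * Complex.I)) j
      rw [Ph_apply h1, Ph_apply h2]
      have h3 : wz (1 + t * Complex.I) = (64 : ℂ)⁻¹ * wz (t * Complex.I) := by
        unfold wz
        rw [add_mul, neg_add, Complex.exp_add, one_mul, ← Complex.ofReal_neg, ← Complex.ofReal_exp,
          Real.exp_neg, Real.exp_log (by norm_num)]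
        push_cast; rfl
      rw [h3, mul_pow, inv_pow, Complex.ofReal_one]
      ring
  · ext j
    have h1 : ‖wz ((1 / 2 : ℝ) : ℂ)‖ ≤ 1 := norm_wz_le (by rw [Complex.ofReal_re]; norm_num)
    show da ((1 / 2 : ℝ) : ℂ) * Ph (wz ((1 / 2 : ℝ) : ℂ)) j = a j
    rw [Ph_apply h1, a_apply]
    have h2 : da ((1 / 2 : ℝ) : ℂ) = 4 := by
      unfold da
      have : (((1 / 2 : ℝ) : ℂ)) ^ 2 - 1 / 4 = 0 := by push_cast; ring
      rw [this, Complex.exp_zero, mul_one]
    have h3 : wz ((1 / 2 : ℝ) : ℂ) = (8 : ℂ)⁻¹ := by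
      unfold wz
      have h4 : -((((1 / 2 : ℝ) : ℂ)) * ((Real.log 64 : ℝ) : ℂ)) = ((-Real.log 8 : ℝ) : ℂ) := by
        have : (64 : ℝ) = 8 ^ 2 := by norm_num
        rw [this, Real.log_pow]; push_cast; ring
      rw [h4, ← Complex.ofReal_exp, Real.exp_neg, Real.exp_log (by norm_num)]
      push_cast; rfl
    rw [h2, h3, inv_pow]
    unfold c
    push_cast
    ring

end IsIn

theorem result :
    ∃ (A₀ A₁ B₀ B₁ : Type) (_ : NormedAddCommGroup A₀) (_ : NormedSpace ℂ A₀)
      (_ : CompleteSpace A₀) (_ : NormedAddCommGroup A₁) (_ : NormedSpace ℂ A₁)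
      (_ : CompleteSpace A₁) (_ : NormedAddCommGroup B₀) (_ : NormedSpace ℂ B₀)
      (_ : CompleteSpace B₀) (_ : NormedAddCommGroup B₁) (_ : NormedSpace ℂ B₁)
      (_ : CompleteSpace B₁) (ιA : A₁ →L[ℂ] A₀) (ιB : B₁ →L[ℂ] B₀) (U : A₀ → B₀) (M₀ M₁ : ℝ)
      (θ : ℝ),
      Function.Injective ιA ∧ Function.Injective ιB ∧
      (∀ x y, ‖U x - U y‖ ≤ M₀ * ‖x - y‖) ∧
      (∀ x, ∃ y, ιB y = U (ιA x) ∧ ‖y‖ ≤ M₁ * ‖x‖) ∧
      RealGateauxDifferentiable U ∧ 0 < θ ∧ θ < 1 ∧
      ∃ a ∈ InterpSpace ιA θ, U a ∉ InterpSpace ιB θ :=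
  ⟨L2, L2, L1, L1, inferInstance, inferInstance, inferInstance, inferInstance, inferInstance,
    inferInstance, inferInstance, inferInstance, inferInstance, inferInstance, inferInstance,
    inferInstance, inc 2, inc 1, U, 8, 1, (1 / 2 : ℝ), inc_injective 2, inc_injective 1,
    lipschitz_U, bounded_U, gateaux_U, by norm_num, by norm_num, a, a_mem, not_mem⟩

end Pool.Agent.Results.MP_754066_an.GateauxFails
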